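import Mathlib
import Pool.Agent.H230R2.Sail.General3

/-!
# Integer `n`-gons that are not `m`-realizable, for all `m` and `n` with `n ≥ m + 2`

`Pool.Agent.H230R2.Sail.Defs` contains the definitions: `IsPolygon n v` (the integer points
`v 0, ..., v (n-1)` are the vertices of a convex `n`-gon in counterclockwise order), `poly v`
(their convex hull), `IsGon k Q` (convex polygon with exactly `k` sides and arbitrary real
vertices) and `Realizable m P`.
-/

namespace Pool.Agent.Results.MP_2d08ba_nt.BlockingCriterion

open H230R2.Sail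

/-- **Theorem.** Let `m + 2 ≤ n` and let `P` be an integer `n`-gon. Then `P` is not
`m`-realizable if and only if for every nonzero vector `a` there are `m + 1` integer points
outside `P`, none of which is cut off by the supporting half plane of `P` in direction `a`, such
that for any two of them the segment joining them meets `P`. -/
theorem result (m n : ℕ) (hmn : m + 2 ≤ n) (v : ZMod n → ℤ × ℤ) (hv : IsPolygon n v) :
    ¬ Realizable m (poly v) ↔
      ∀ a : ℝ × ℝ, a ≠ 0 → ∃ z : Fin (m + 1) → ℤ × ℤ,
        (∀ i, toR (z i) ∉ poly v ∧ ∃ k, dot a (toR (z i)) ≤ dot a (toR (v k))) ∧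
        ∀ i j, i ≠ j → (segment ℝ (toR (z i)) (toR (z j)) ∩ poly v).Nonempty := by
  classical
  have : NeZero n := ⟨by omega⟩
  constructor
  · intro hnr a ha
    by_contra hcon
    push Not at hcon
    apply hnr
    -- the finite family of the near points that are not cut off by `a`
    set s : Finset (ℤ × ℤ) := (near_finite hv).toFinset.filter
      (fun z => ∃ k, dot a (toR z) ≤ dot a (toR (v k))) with hs
    have hsmem : ∀ z ∈ s, toR z ∉ poly v ∧ ∃ k, dot a (toR z) ≤ dot a (toR (v k)) := by
      intro z hz
      rw [hs, Finset.mem_filter, Set.Finite.mem_toFinset] at hz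
      exact ⟨hz.1.1, hz.2⟩
    -- use order connectedness only for the points of `s`
    set I : s → Set ℝ := fun z => cuts v a z.1 with hI
    have hI1 : ∀ z, (I z).OrdConnected := fun z => cuts_ordConnected v a z.1 (hsmem z.1 z.2).2
    have hI2 : ∀ z ∈ (Finset.univ : Finset s), (I z).Nonempty := fun z _ =>
      cuts_nonempty hv ha (hsmem z.1 z.2).1 (hsmem z.1 z.2).2
    rcases pierce I hI1 m Finset.univ hI2 with ⟨f, -, hf⟩ | ⟨p, hp⟩
    · exfalso
      obtain ⟨i, j, hij, hseg⟩ := hcon (fun i => (f i).1) (fun i => hsmem _ (f i).2)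
      -- a separating direction
      have hcomp : IsCompact (poly v) := (Set.finite_range _).isCompact_convexHull ℝ
      have hdisj : Disjoint (segment ℝ (toR (f i).1) (toR (f j).1)) (poly v) := by
        rw [Set.disjoint_iff_inter_eq_empty]; exact hseg
      obtain ⟨g, u, w, hg1, huw, hg2⟩ := geometric_hahn_banach_compact_closed
        (convex_convexHull ℝ _) hcomp (convex_segment _ _) (segment_isClosed' _ _) hdisj.symm
      obtain ⟨b, hb⟩ : ∃ b : ℝ × ℝ, b = (g (1, 0), g (0, 1)) := ⟨_, rfl⟩
      have hgb : ∀ y : ℝ × ℝ, g y = dot b y := by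
        intro y
        have : y = y.1 • ((1 : ℝ), (0 : ℝ)) + y.2 • ((0 : ℝ), (1 : ℝ)) := by
          ext <;> simp
        conv_lhs => rw [this]
        rw [map_add, map_smul, map_smul]
        simp only [dot, hb, smul_eq_mul]
        ring
      have c1 : ∀ k, dot b (toR (v k)) < dot b (toR (f i).1) := by
        intro k
        have h1 := hg1 _ (vertex_mem v k)
        have h2 := hg2 _ (left_mem_segment ℝ (toR (f i).1) (toR (f j).1))
        rw [hgb] at h1 h2
        linarith
      have c2 : ∀ k, dot b (toR (v k)) < dot b (toR (f j).1) := by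
        intro k
        have h1 := hg1 _ (vertex_mem v k)
        have h2 := hg2 _ (right_mem_segment ℝ (toR (f i).1) (toR (f j).1))
        rw [hgb] at h1 h2
        linarith
      obtain ⟨t, ht1, ht2⟩ := exists_dir ha c1 c2 (hsmem _ (f i).2).2
      exact Set.disjoint_left.mp (hf i j hij) ht1 ht2
    · have hcut : ∀ z : ℤ × ℤ, toR z ∉ poly v → ∃ j : Fin (m + 1),
          ∀ k, dot ((Fin.cons a (fun j => dir a (p j)) : Fin (m + 1) → ℝ × ℝ) j) (toR (v k)) <
            dot ((Fin.cons a (fun j => dir a (p j)) : Fin (m + 1) → ℝ × ℝ) j) (toR z) := by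
        intro z hz
        obtain ⟨N, hN⟩ : ∃ N : ℕ, (∑ l, max 0 (-side v l (toR z))) < 2 ^ N :=
          pow_unbounded_of_one_lt _ (by norm_num)
        obtain ⟨z', hz', hdom⟩ := dominate hv N z hz hN
        have hdom' : ∀ b : ℝ × ℝ, (∀ k, dot b (toR (v k)) < dot b (toR z')) →
            ∀ k, dot b (toR (v k)) < dot b (toR z) := by
          intro b hb
          obtain ⟨k0, hk0⟩ := Finite.exists_max (fun k : ZMod n => dot b (toR (v k)))
          intro k
          by_contra hc
          push Not at hc
          have h1 := hdom b (dot b (toR (v k0))) hk0 (hc.trans (hk0 k))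
          have h2 := hb k0
          linarith
        by_cases hza : ∃ k, dot a (toR z') ≤ dot a (toR (v k))
        · have hmem : z' ∈ s := by
            rw [hs, Finset.mem_filter, Set.Finite.mem_toFinset]
            exact ⟨hz', hza⟩
          obtain ⟨j, hj⟩ := hp ⟨z', hmem⟩ (Finset.mem_univ _)
          refine ⟨j.succ, ?_⟩
          simp only [Fin.cons_succ]
          exact hdom' _ hj
        · push Not at hza
          refine ⟨0, ?_⟩
          simp only [Fin.cons_zero]
          exact hdom' _ hza
      obtain ⟨Q, hQ, hmeet⟩ := fits_of_cut hv _ hcut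
      obtain ⟨Q', hQ', hgon⟩ := exact_sides hv (K := m + 1) (by omega) hQ hmeet
      obtain ⟨h1, h2⟩ := hQ'.spec
      exact ⟨Q', hgon, h1, h2⟩
  · rintro hall ⟨Q, hgon, hP, hconv⟩
    obtain ⟨b, c, rfl⟩ := hgon.2.2.1
    obtain ⟨a, ha, hba⟩ : ∃ a : ℝ × ℝ, a ≠ 0 ∧ (b 0 = 0 ∨ b 0 = a) := by
      by_cases h : b 0 = 0
      · exact ⟨(1, 0), by simp, Or.inl h⟩
      · exact ⟨b 0, h, Or.inr rfl⟩
    obtain ⟨z, hz1, hz2⟩ := hall a ha
    have hv0 : ∀ j k, dot (b j) (toR (v k)) ≤ c j := fun j k =>
      interior_subset (hP (vertex_mem v k)) j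
    have h2 : ∀ i, ∃ j, c j < dot (b j) (toR (z i)) := by
      intro i
      by_contra hcon
      push Not at hcon
      apply (hz1 i).1
      rw [← hconv]
      exact subset_convexHull ℝ _ ⟨hcon, z i, rfl⟩
    choose g hg using h2
    have hg0 : ∀ i, g i ≠ 0 := by
      intro i h0
      have h3 := hg i
      rw [h0] at h3
      obtain ⟨k, hk⟩ := (hz1 i).2
      have h4 := hv0 0 k
      rcases hba with h | h
      · rw [h] at h3 h4
        simp only [dot, Prod.fst_zero, Prod.snd_zero, zero_mul, add_zero] at h3 h4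
        linarith
      · rw [h] at h3 h4
        linarith
    obtain ⟨i, j, hij, hgij⟩ := Fintype.exists_ne_map_eq_of_card_lt
      (fun i => (⟨g i, hg0 i⟩ : {j : Fin (m + 1) // j ≠ 0})) (by
        rw [Fintype.card_subtype_compl]; simp)
    have hgij' : g i = g j := congrArg Subtype.val hgij
    obtain ⟨x, ⟨s, t, hs, ht, hst, rfl⟩, hx2⟩ := hz2 i j hij
    have h5 : dot (b (g i)) (s • toR (z i) + t • toR (z j)) ≤ c (g i) :=
      interior_subset (hP hx2) (g i)
    have h6 := hg i
    have h7 := hg j
    rw [← hgij'] at h7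
    have h8 : dot (b (g i)) (s • toR (z i) + t • toR (z j)) =
        s * dot (b (g i)) (toR (z i)) + t * dot (b (g i)) (toR (z j)) := by
      simp only [dot, Prod.fst_add, Prod.snd_add, Prod.smul_fst, Prod.smul_snd, smul_eq_mul]
      ring
    rw [h8] at h5
    have hs1 : s = 1 - t := by linarith
    subst hs1
    rcases eq_or_lt_of_le ht with h | h
    · rw [← h] at h5; linarith
    · nlinarith [mul_lt_mul_of_pos_left h7 h, mul_le_mul_of_nonneg_left h6.le hs]

end Pool.Agent.Results.MP_2d08ba_nt.BlockingCriterion
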