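import Mathlib
import Pool.Agent.H230R2.Sail.Construct

/-!
# Integer `(m+2)`-gons that are not `m`-realizable

`Pool.Agent.H230R2.Sail.Defs` contains the definitions: `IsPolygon n v` (the integer points
`v 0, ..., v (n-1)` are the vertices of a convex `n`-gon in counterclockwise order), `poly v`
(their convex hull), `IsGon k Q` (convex polygon with exactly `k` sides and arbitrary real
vertices), `Realizable m P`, and `side v i x` (positive to the left of the directed line through
`v i` and `v (i+1)`, i.e. on the side of the polygon, negative on the other side).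
-/

namespace Pool.Agent.Results.MP_2d08ba_nt.CornerCriterion

open H230R2.Sail

lemma isMeet_construct {m : ℕ} (v : ZMod (m + 2) → ℤ × ℤ) (i : ZMod (m + 2)) (ε η : ℝ) :
    IsMeet (m + 1) {x | ∀ l, l ≠ i → -η ≤ side v l x + ε * side v i x} := by
  let i' : Fin (m + 2) := i
  let f : Fin (m + 1) → ZMod (m + 2) := fun j => i'.succAbove j
  refine ⟨fun j => ((edge v (f j)).2 + ε * (edge v i).2, -((edge v (f j)).1 + ε * (edge v i).1)),
    fun j => η + side v (f j) 0 + ε * side v i 0, ?_⟩
  have key : ∀ (l : ZMod (m + 2)) (x : ℝ × ℝ), -η ≤ side v l x + ε * side v i x ↔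
      dot ((edge v l).2 + ε * (edge v i).2, -((edge v l).1 + ε * (edge v i).1)) x ≤
        η + side v l 0 + ε * side v i 0 := by
    intro l x
    rw [side_zero v l x, side_zero v i x]
    simp only [dot, det]
    constructor <;> intro h <;> linarith
  ext x
  simp only [Set.mem_setOf_eq]
  constructor
  · intro h j
    exact (key (f j) x).mp (h (f j) (Fin.succAbove_ne i' j))
  · intro h l hl
    obtain ⟨j, hj⟩ := Fin.exists_succAbove_eq (x := (l : Fin (m + 2))) (y := i') hl
    have h2 := (key (f j) x).mpr (h j)
    have h3 : f j = l := hj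
    rwa [h3] at h2

/-- **Theorem.** Let `n = m + 2 ≥ 3` and let `P` be an integer `n`-gon with vertices
`v 0, ..., v (n-1)` in counterclockwise order. Then `P` is not `m`-realizable if and only if for
every edge of `P` there is an integer point which is strictly beyond the line of this edge and
strictly inside the supporting half planes of the two adjacent edges. -/
theorem result (m : ℕ) (v : ZMod (m + 2) → ℤ × ℤ) (hv : IsPolygon (m + 2) v) :
    ¬ Realizable m (poly v) ↔
      ∀ i : ZMod (m + 2), ∃ z : ℤ × ℤ, side v i (toR z) < 0 ∧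
        0 < side v (i - 1) (toR z) ∧ 0 < side v (i + 1) (toR z) := by
  constructor
  · intro h i
    by_contra hcon
    apply h
    obtain ⟨ε, η, -, -, hfit⟩ := construct hv i hcon
    obtain ⟨Q, hQ, hgon⟩ := exact_sides hv (K := m + 1) (by omega) hfit
      (isMeet_construct v i ε η)
    obtain ⟨h1, h2⟩ := hQ.spec
    exact ⟨Q, hgon, h1, h2⟩
  · rintro ho ⟨Q, hgon, hP, hconv⟩
    obtain ⟨a, c, rfl⟩ := hgon.2.2.1
    refine obstruction hv ho (k := m + 1) (by omega) a c ?_ ?_
    · intro j i
      exact interior_subset (hP (vertex_mem v i)) j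
    · intro z hz
      rw [← hconv]
      exact subset_convexHull ℝ _ ⟨hz, z, rfl⟩

end Pool.Agent.Results.MP_2d08ba_nt.CornerCriterion
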