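import Mathlib
import Pool.Agent.H230R2.Sail.Construct

/-!
# Large dilates of integer polygons are not realizable

`Pool.Agent.H230R2.Sail.Defs` contains the definitions `IsPolygon`, `poly`, `IsGon` and
`Realizable`.
-/

namespace Pool.Agent.Results.MP_2d08ba_nt.LargeDilates

open H230R2.Sail

/-- The vertices of the polygon `N * P`. -/
def dilate {n : ℕ} (N : ℕ) (v : ZMod n → ℤ × ℤ) : ZMod n → ℤ × ℤ :=
  fun i => (N * (v i).1, N * (v i).2)

lemma side_dilate {n : ℕ} (N : ℕ) (v : ZMod n → ℤ × ℤ) (j : ZMod n) (x : ℝ × ℝ) :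
    side (dilate N v) j ((N : ℝ) * x.1, (N : ℝ) * x.2) = (N : ℝ) ^ 2 * side v j x := by
  simp only [side, det, dilate, toR, Prod.fst_sub, Prod.snd_sub]
  push_cast
  ring

lemma isPolygon_dilate {n : ℕ} {N : ℕ} (hN : 1 ≤ N) {v : ZMod n → ℤ × ℤ} (hv : IsPolygon n v) :
    IsPolygon n (dilate N v) := by
  refine ⟨hv.1, fun i j h1 h2 => ?_⟩
  have h := hv.2 i j h1 h2
  have e := side_dilate N v i (toR (v j))
  have hN' : (0 : ℝ) < (N : ℝ) ^ 2 := by
    have : (0 : ℝ) < N := by exact_mod_cast hN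
    positivity
  have h3 := mul_pos hN' h
  have e2 : side (dilate N v) i (toR (dilate N v j)) = (N : ℝ) ^ 2 * side v i (toR (v j)) := by
    rw [← e]; congr 1; simp [dilate, toR]
  have h4 : 0 < side (dilate N v) i (toR (dilate N v j)) := by rw [e2]; exact h3
  exact h4

/-- **Theorem.** For every integer `n`-gon `P` there is `N₀` such that for all `N ≥ N₀` the
integer `n`-gon `N * P` is `m`-realizable for no `m ≤ n - 2`. -/
theorem result (n : ℕ) (v : ZMod n → ℤ × ℤ) (hv : IsPolygon n v) :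
    ∃ N₀ : ℕ, ∀ N ≥ N₀, IsPolygon n (dilate N v) ∧
      ∀ m, m + 2 ≤ n → ¬ Realizable m (poly (dilate N v)) := by
  have hn := hv.1
  have : NeZero n := ⟨by omega⟩
  obtain ⟨δ, w, hδ, hw1, hw2⟩ := exists_outer hv
  obtain ⟨C, hC⟩ : ∃ C : ℝ, ∀ j, |(edge v j).1| + |(edge v j).2| ≤ C := by
    refine ⟨∑ l : ZMod n, (|(edge v l).1| + |(edge v l).2|), fun j => ?_⟩
    exact Finset.single_le_sum (f := fun l => |(edge v l).1| + |(edge v l).2|)
      (fun l _ => add_nonneg (abs_nonneg _) (abs_nonneg _)) (Finset.mem_univ j)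
  obtain ⟨N₁, hN₁⟩ := exists_nat_gt (C / (2 * δ))
  refine ⟨N₁ + 1, fun N hN => ?_⟩
  have hN1 : 1 ≤ N := by omega
  have hNpos : (0 : ℝ) < N := by exact_mod_cast hN1
  have hvN := isPolygon_dilate hN1 hv
  have hbig : C < 2 * δ * N := by
    have h1 : (N₁ : ℝ) ≤ N := by exact_mod_cast (by omega : N₁ ≤ N)
    have h2 := hN₁.trans_le h1
    rw [div_lt_iff₀ (by linarith)] at h2
    linarith
  have hround : ∀ i j, |side (dilate N v) j (toR (⌊(N : ℝ) * (w i).1⌋, ⌊(N : ℝ) * (w i).2⌋)) -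
      (N : ℝ) ^ 2 * side v j (w i)| ≤ N * C := by
    intro i j
    have h := side_round (dilate N v) j ((N : ℝ) * (w i).1, (N : ℝ) * (w i).2)
    rw [side_dilate] at h
    refine h.trans ?_
    have e1 : (edge (dilate N v) j).1 = N * (edge v j).1 := by
      simp only [edge, dilate, toR, Prod.fst_sub]; push_cast; ring
    have e2 : (edge (dilate N v) j).2 = N * (edge v j).2 := by
      simp only [edge, dilate, toR, Prod.snd_sub]; push_cast; ring
    rw [e1, e2, abs_mul, abs_mul, abs_of_pos hNpos, ← mul_add]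
    exact mul_le_mul_of_nonneg_left (hC j) hNpos.le
  have hprod : N * C < (N : ℝ) ^ 2 * (2 * δ) := by
    have := mul_lt_mul_of_pos_left hbig hNpos
    linarith [this, (by ring : (N : ℝ) * (2 * δ * N) = (N : ℝ) ^ 2 * (2 * δ))]
  have hpos : ∀ i j, j ≠ i →
      0 < side (dilate N v) j (toR (⌊(N : ℝ) * (w i).1⌋, ⌊(N : ℝ) * (w i).2⌋)) := by
    intro i j hji
    have h1 := (abs_le.mp (hround i j)).1
    have h2 := mul_le_mul_of_nonneg_left (hw2 i j hji) (sq_nonneg (N : ℝ))
    linarith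
  have hover : ∀ i, ∃ z, Over (dilate N v) i z := by
    intro i
    refine ⟨(⌊(N : ℝ) * (w i).1⌋, ⌊(N : ℝ) * (w i).2⌋), ?_, hpos i _ ?_, hpos i _ ?_⟩
    · have h1 := (abs_le.mp (hround i i)).2
      rw [hw1] at h1
      linarith
    · intro h; apply one_ne (hn := hn)
      have : (1 : ZMod n) = i - (i - 1) := by ring
      rw [this, h]; ring
    · intro h; apply one_ne (hn := hn)
      have : (1 : ZMod n) = (i + 1) - i := by ring
      rw [this, h]; ring
  refine ⟨hvN, ?_⟩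
  rintro m hm ⟨Q, hgon, hP, hconv⟩
  obtain ⟨a, c, rfl⟩ := hgon.2.2.1
  refine obstruction hvN hover (k := m + 1) (by omega) a c ?_ ?_
  · intro j i
    exact interior_subset (hP (vertex_mem _ i)) j
  · intro z hz
    rw [← hconv]
    exact subset_convexHull ℝ _ ⟨hz, z, rfl⟩

end Pool.Agent.Results.MP_2d08ba_nt.LargeDilates
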